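import Pool.Agent.Y36.LT.Ext

/-! LT-CENT: a centre of codimension at most one on an affine space is principal. -/

set_option autoImplicit false

namespace Pool.Agent.Y36.LT.CENT

open MvPolynomial Pool.Agent.Y166.LT
open FF (Place)

/-- A prime ideal of `R[X]` with trivial intersection with the factorial domain `R` is principal. -/
theorem poly {R κ : Type*} [CommRing R] [IsDomain R] [UniqueFactorizationMonoid R] [Field κ]
    (ψ : Polynomial R →+* κ) (h1 : ∀ r : R, ψ (Polynomial.C r) = 0 → r = 0)
    (h2 : ∃ F, F ≠ 0 ∧ ψ F = 0) :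
    ∃ h : Polynomial R, Irreducible h ∧ ψ h = 0 ∧ ∀ F, ψ F = 0 → h ∣ F := by
  classical
  let _ : NormalizedGCDMonoid R := (inferInstance : Nonempty (NormalizedGCDMonoid R)).some
  have hprime : (RingHom.ker ψ).IsPrime := RingHom.ker_isPrime ψ
  have hne : RingHom.ker ψ ≠ ⊥ := by
    obtain ⟨F, hF, hF'⟩ := h2
    intro hb
    have : F ∈ RingHom.ker ψ := hF'
    rw [hb] at this
    exact hF this
  obtain ⟨h, hmem, hp⟩ := Ideal.IsPrime.exists_mem_prime_of_ne_bot hprime hne
  have hψ : ψ h = 0 := hmem
  have hirr : Irreducible h := hp.irreducible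
  refine ⟨h, hirr, hψ, fun F hF => ?_⟩
  have hdeg : h.natDegree ≠ 0 := by
    intro h0
    obtain ⟨c, hc⟩ := Polynomial.natDegree_eq_zero.1 h0
    rw [← hc] at hψ
    have := h1 c hψ
    rw [this, Polynomial.C_0] at hc
    exact hirr.ne_zero hc.symm
  have hprim : h.IsPrimitive := hirr.isPrimitive hdeg
  by_contra hnd
  have hirr' : Irreducible (h.map (algebraMap R (FractionRing R))) :=
    (hprim.irreducible_iff_irreducible_map_fraction_map).1 hirr
  have hnd' : ¬ h.map (algebraMap R (FractionRing R)) ∣ F.map (algebraMap R (FractionRing R)) :=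
    fun hd => hnd (hprim.dvd_of_fraction_map_dvd_fraction_map hd)
  have hcop := (hirr'.coprime_iff_not_dvd).2 hnd'
  obtain ⟨a, b, hab⟩ := hcop
  have hinj : Function.Injective (ψ.comp Polynomial.C) := by
    rw [injective_iff_map_eq_zero]
    intro r hr
    exact h1 r hr
  let g : FractionRing R →+* κ := IsFractionRing.lift hinj
  have hg : g.comp (algebraMap R (FractionRing R)) = ψ.comp Polynomial.C := by
    ext r
    simp [g]
  have hev : ∀ G : Polynomial R,
      Polynomial.eval₂ g (ψ Polynomial.X) (G.map (algebraMap R (FractionRing R))) = ψ G := by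
    intro G
    rw [Polynomial.eval₂_map, hg]
    have : (Polynomial.eval₂RingHom (ψ.comp Polynomial.C) (ψ Polynomial.X)) = ψ := by
      apply Polynomial.ringHom_ext
      · intro r; simp
      · simp
    rw [← Polynomial.coe_eval₂RingHom, this]
  have := congrArg (Polynomial.eval₂ g (ψ Polynomial.X)) hab
  rw [Polynomial.eval₂_add, Polynomial.eval₂_mul, Polynomial.eval₂_mul, hev, hev, hψ, hF,
    mul_zero, mul_zero, add_zero, Polynomial.eval₂_one] at this
  exact zero_ne_one this

/-- The choice of the variable. -/
theorem choose_var {k E σ : Type} [Field k] [Field E] [Algebra k E] [Fintype σ] (x : σ → E)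
    (hx : IntermediateField.adjoin k (Set.range x) = ⊤) (hni : ¬ AlgebraicIndependent k x)
    (m : ℕ) (hm : Fintype.card σ ≤ m + 1) (y : Fin m → E) (hy : AlgebraicIndependent k y) :
    ∃ j0 : σ, AlgebraicIndependent k (fun j : {j : σ // j ≠ j0} => x j.1) := by
  classical
  have h1 : Algebra.IsAlgebraic (IntermediateField.adjoin k (Set.range x)) E := by
    rw [hx]
    exact ⟨fun a => isAlgebraic_algebraMap (⟨a, trivial⟩ : (⊤ : IntermediateField k E))⟩
  have h2 : Algebra.IsAlgebraic (Algebra.adjoin k (Set.range x)) E :=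
    IntermediateField.isAlgebraic_adjoin_iff_top.1 h1
  obtain ⟨u, hu, hub⟩ := exists_isTranscendenceBasis_subset (R := k) (Set.range x)
  have hcard : m ≤ Nat.card u := by
    have e1 := hub.cardinalMk_eq_trdeg
    have e2 := hy.lift_cardinalMk_le_trdeg
    rw [← e1] at e2
    have hfin : Finite u := (Set.finite_range x).subset hu
    have := Cardinal.toNat_le_toNat e2 (by
      rw [Cardinal.lift_lt_aleph0]
      exact Cardinal.lt_aleph0_of_finite u)
    simpa [Nat.card] using this
  have hpre : ∀ a : u, ∃ j : σ, x j = a.1 := fun a => hu a.2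
  choose g hg using hpre
  have hginj : Function.Injective g := by
    intro a b hab
    apply Subtype.ext
    rw [← hg a, ← hg b, hab]
  have hgi : AlgebraicIndependent k (x ∘ g) := by
    have : x ∘ g = ((↑) : u → E) := by
      funext a; exact hg a
    rw [this]; exact hub.1
  have hns : ¬ Function.Surjective g := by
    intro hs
    apply hni
    let e := Equiv.ofBijective g ⟨hginj, hs⟩
    have : x = (x ∘ g) ∘ e.symm := by
      funext j
      show x j = x (e (e.symm j))
      rw [Equiv.apply_symm_apply]
    rw [this]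
    exact hgi.comp _ e.symm.injective
  obtain ⟨j0, hj0⟩ := not_forall.1 hns
  refine ⟨j0, ?_⟩
  have hgne : ∀ a, g a ≠ j0 := fun a h => hj0 ⟨a, h⟩
  have hfu : Finite u := (Set.finite_range x).subset hu
  have hsurj : Function.Surjective (fun a : u => (⟨g a, hgne a⟩ : {j : σ // j ≠ j0})) := by
    have hinj' : Function.Injective (fun a : u => (⟨g a, hgne a⟩ : {j : σ // j ≠ j0})) := by
      intro a b hab
      exact hginj (congrArg Subtype.val hab)
    have : Nat.card {j : σ // j ≠ j0} ≤ Nat.card u := by
      rw [Nat.card_eq_fintype_card, Fintype.card_subtype_compl, Fintype.card_subtype_eq]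
      omega
    exact ((Nat.bijective_iff_injective_and_card _).2
      ⟨hinj', le_antisymm (Nat.card_le_card_of_injective _ hinj') this⟩).2
  have hbij : Function.Bijective (fun a : u => (⟨g a, hgne a⟩ : {j : σ // j ≠ j0})) :=
    ⟨fun a b hab => hginj (congrArg Subtype.val hab), hsurj⟩
  let e := Equiv.ofBijective _ hbij
  have : (fun j : {j : σ // j ≠ j0} => x j.1) = (x ∘ g) ∘ e.symm := by
    funext j
    show x j.1 = x (e (e.symm j)).1
    rw [Equiv.apply_symm_apply]
  rw [this]
  exact hgi.comp _ e.symm.injective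

section
variable {k K σ : Type*} [Field k] [Field K] [Algebra k K] (t : σ → K) (v : Place k K)

theorem regA (ht : ∀ i, v.Reg (t i)) (F : MvPolynomial σ k) : v.Reg (aeval t F) := by
  induction F using MvPolynomial.induction_on with
  | C a => rw [MvPolynomial.aeval_C]; exact v.reg_const a
  | add p q hp hq => rw [map_add]; exact v.reg_add hp hq
  | mul_X p i hp => rw [map_mul, MvPolynomial.aeval_X]; exact v.reg_mul hp (ht i)

theorem redA (ht : ∀ i, v.Reg (t i)) (F : MvPolynomial σ k) :
    v.red (aeval t F) = aeval (fun i => v.red (t i)) F := by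
  induction F using MvPolynomial.induction_on with
  | C a => rw [MvPolynomial.aeval_C, MvPolynomial.aeval_C]; exact (v.algebraMap_RF a).symm
  | add p q hp hq =>
    rw [map_add, map_add, v.red_add (regA t v ht p) (regA t v ht q), hp, hq]
  | mul_X p i hp =>
    rw [map_mul, map_mul, MvPolynomial.aeval_X, MvPolynomial.aeval_X,
      v.red_mul (regA t v ht p) (ht i), hp]

theorem ord_zero_of_red (ht : ∀ i, v.Reg (t i)) (F : MvPolynomial σ k)
    (h : aeval (fun i => v.red (t i)) F ≠ 0) : v.ord (aeval t F) = 0 := by
  rw [← redA t v ht, Ne, v.red_eq_zero_iff (regA t v ht F)] at h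
  push Not at h
  exact le_antisymm h.2 ((v.reg_iff h.1).1 (regA t v ht F))

end

theorem done : S_CENT := by
  classical
  intro k K σ _ _ _ _ _ t v m hti htr hm y hy hyi
  set tb : σ → v.RF := fun i => v.red (t i) with htb
  by_cases hind : AlgebraicIndependent k tb
  · left
    intro F
    by_cases hF : F = 0
    · rw [hF, map_zero, v.ord_zero]
    · exact ord_zero_of_red t v htr F (fun h => hF (hind (by rw [h, map_zero])))
  right
  have hA : ∀ i, v.Reg (y i) ∧ v.red (y i) ∈ IntermediateField.adjoin k (Set.range tb) := by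
    intro i
    obtain ⟨A, B, hB, hB', e⟩ := hy i
    have r1 := regA t v htr A
    have r2 : v.Reg (aeval t B)⁻¹ := Or.inr (by rw [v.ord_inv, hB']; simp)
    have r3 : v.Reg (aeval t B) := Or.inr hB'.ge
    have m1 : ∀ F : MvPolynomial σ k,
        v.red (aeval t F) ∈ IntermediateField.adjoin k (Set.range tb) := by
      intro F
      rw [redA t v htr F]
      exact IntermediateField.algebra_adjoin_le_adjoin k _ (by
        rw [Algebra.adjoin_range_eq_range_aeval]
        exact ⟨F, rfl⟩)
    have hinv : v.red (aeval t B)⁻¹ = (v.red (aeval t B))⁻¹ := by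
      apply eq_inv_of_mul_eq_one_left
      rw [← v.red_mul r2 r3, inv_mul_cancel₀ hB, v.red_one]
    rw [e, div_eq_mul_inv]
    refine ⟨v.reg_mul r1 r2, ?_⟩
    rw [v.red_mul r1 r2, hinv]
    exact mul_mem (m1 A) (inv_mem (m1 B))
  set E := IntermediateField.adjoin k (Set.range tb) with hE
  let x : σ → E := fun i => ⟨tb i, IntermediateField.subset_adjoin k _ ⟨i, rfl⟩⟩
  let y' : Fin m → E := fun i => ⟨v.red (y i), (hA i).2⟩
  have hx : IntermediateField.adjoin k (Set.range x) = ⊤ := by
    apply IntermediateField.lift_injective E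
    rw [IntermediateField.lift_adjoin, IntermediateField.lift_top, ← Set.range_comp]
    rfl
  have hni : ¬ AlgebraicIndependent k x := by
    intro h
    exact hind (h.map' (f := E.val) E.val.injective)
  have hyi' : AlgebraicIndependent k y' := by
    apply AlgebraicIndependent.of_comp E.val
    show Function.Injective _
    rw [injective_iff_map_eq_zero]
    intro p hp
    by_contra hp0
    have h1 := hyi p hp0
    have h2 : v.red (aeval y p) = aeval (fun i => v.red (y i)) p :=
      redA y v (fun i => (hA i).1) p
    have h3 : aeval (fun i => v.red (y i)) p = 0 := hp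
    rw [h3] at h2
    exact v.red_ne_zero h1.1 h1.2 h2
  obtain ⟨j0, hj0⟩ := choose_var x hx hni m hm y' hyi'
  have hj : AlgebraicIndependent k (fun j : {j : σ // j ≠ j0} => tb j.1) :=
    hj0.map' (f := E.val) E.val.injective
  let e : MvPolynomial σ k ≃ₐ[k] Polynomial (MvPolynomial {j : σ // j ≠ j0} k) :=
    (renameEquiv k (Equiv.optionSubtypeNe j0).symm).trans (optionEquivLeft k _)
  have he : ∀ r : MvPolynomial {j : σ // j ≠ j0} k,
      e (rename Subtype.val r) = Polynomial.C r := by
    intro r
    have : (e.toAlgHom.comp (rename Subtype.val)) =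
        (Polynomial.CAlgHom (R := k) (A := MvPolynomial {j : σ // j ≠ j0} k)) := by
      apply MvPolynomial.algHom_ext
      intro j
      have h1 : (Equiv.optionSubtypeNe j0).symm j.1 = some j := by
        rw [Equiv.symm_apply_eq]; simp
      show optionEquivLeft k _ (renameEquiv k (Equiv.optionSubtypeNe j0).symm
        (rename Subtype.val (X j))) = Polynomial.C (X j)
      rw [rename_X, renameEquiv_apply, rename_X, h1, optionEquivLeft_X_some]
    exact DFunLike.congr_fun this r
  let ψ : Polynomial (MvPolynomial {j : σ // j ≠ j0} k) →+* v.RF :=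
    (aeval tb : MvPolynomial σ k →ₐ[k] v.RF).toRingHom.comp e.symm.toAlgHom.toRingHom
  have hψ : ∀ F, ψ (e F) = aeval tb F := by
    intro F
    show aeval tb (e.symm (e F)) = _
    rw [AlgEquiv.symm_apply_apply]
  obtain ⟨h', hirr, hh0, hdiv⟩ := poly ψ
    (by
      intro r hr
      rw [← he, hψ, aeval_rename] at hr
      exact hj (by rw [map_zero]; exact hr))
    (by
      have : ∃ F : MvPolynomial σ k, aeval tb F = 0 ∧ F ≠ 0 := by
        by_contra hc
        push Not at hc
        exact hind ((injective_iff_map_eq_zero _).2 hc)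
      obtain ⟨F, hF, hF0⟩ := this
      exact ⟨e F, fun h => hF0 (e.injective (by rw [h, map_zero])), by rw [hψ, hF]⟩)
  obtain ⟨h, rfl⟩ := e.surjective h'
  have hirr0 : Irreducible h := (MulEquiv.irreducible_iff e.toMulEquiv).1 hirr
  rw [hψ] at hh0
  have hne : aeval t h ≠ 0 := fun h0 => hirr0.ne_zero (hti (by rw [h0, map_zero]))
  refine ⟨h, hirr0, ?_, ?_⟩
  · have h1 := redA t v htr h
    rw [show aeval (fun i => v.red (t i)) h = 0 from hh0, v.red_eq_zero_iff (regA t v htr h)] at h1
    exact h1.resolve_left hne
  · intro F hF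
    apply ord_zero_of_red t v htr F
    intro h0
    apply hF
    have h1 := hdiv (e F) (by rw [hψ]; exact h0)
    exact (map_dvd_iff e.toMulEquiv).1 h1

end Pool.Agent.Y36.LT.CENT
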