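import Pool.Agent.Y36.LT.Ext

/-! LT-GAUSS: the Gauss extension of a valuation to a purely transcendental extension. -/

set_option autoImplicit false

namespace Pool.Agent.Y36.LT.GAUSS

open MvPolynomial Pool.Agent.Y166.LT
open FF (Place)

section
variable {k K ι : Type*} [Field k] [Field K] [Algebra k K] (v : Place k K)

/-- The smallest order of a coefficient is `a`. -/
def G (F : MvPolynomial ι K) (a : ℤ) : Prop :=
  (∀ s, F.coeff s ≠ 0 → a ≤ v.ord (F.coeff s)) ∧ ∃ s, F.coeff s ≠ 0 ∧ v.ord (F.coeff s) = a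

theorem G_unique {F : MvPolynomial ι K} {a b : ℤ} (ha : G v F a) (hb : G v F b) : a = b := by
  obtain ⟨h1, s, hs, hs'⟩ := ha
  obtain ⟨h2, s', hs1, hs1'⟩ := hb
  have := h1 s' hs1
  have := h2 s hs
  omega

theorem G_exists {F : MvPolynomial ι K} (hF : F ≠ 0) : ∃ a, G v F a := by
  classical
  have hne : F.support.Nonempty := by
    rw [Finset.nonempty_iff_ne_empty, Ne, MvPolynomial.support_eq_empty]
    exact hF
  obtain ⟨s, hs, hmin⟩ := Finset.exists_min_image F.support (fun s => v.ord (F.coeff s)) hne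
  exact ⟨v.ord (F.coeff s), fun s' hs' => hmin s' (MvPolynomial.mem_support_iff.2 hs'), s,
    MvPolynomial.mem_support_iff.1 hs, rfl⟩

theorem G_C {c : K} (hc : c ≠ 0) {F : MvPolynomial ι K} {a : ℤ} (h : G v F a) :
    G v (C c * F) (v.ord c + a) := by
  obtain ⟨h1, s, hs, hs'⟩ := h
  refine ⟨fun s' hs' => ?_, s, ?_, ?_⟩
  · rw [MvPolynomial.coeff_C_mul] at hs' ⊢
    have hs0 : F.coeff s' ≠ 0 := right_ne_zero_of_mul hs'
    rw [v.ord_mul hc hs0]
    have := h1 s' hs0
    omega
  · rw [MvPolynomial.coeff_C_mul]; exact mul_ne_zero hc hs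
  · rw [MvPolynomial.coeff_C_mul, v.ord_mul hc hs, hs']

/-- Lift of a polynomial with regular coefficients. -/
theorem lift_exists (F : MvPolynomial ι K) (h : ∀ s, v.Reg (F.coeff s)) :
    ∃ F₀ : MvPolynomial ι v.O, MvPolynomial.map (algebraMap v.O K) F₀ = F := by
  classical
  refine ⟨∑ s ∈ F.support, monomial s ⟨F.coeff s, h s⟩, ?_⟩
  rw [map_sum]
  conv_rhs => rw [F.as_sum]
  refine Finset.sum_congr rfl fun s _ => ?_
  rw [MvPolynomial.map_monomial]
  rfl

theorem G_zero_iff (F₀ : MvPolynomial ι v.O) :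
    G v (MvPolynomial.map (algebraMap v.O K) F₀) 0 ↔
      MvPolynomial.map v.resHom F₀ ≠ 0 := by
  have hval : ∀ s, (MvPolynomial.map (algebraMap v.O K) F₀).coeff s = (F₀.coeff s).1 := by
    intro s; rw [MvPolynomial.coeff_map]; rfl
  have hreg : ∀ s, v.Reg (F₀.coeff s).1 := fun s => (F₀.coeff s).2
  have hred : ∀ s, (MvPolynomial.map v.resHom F₀).coeff s = v.red (F₀.coeff s).1 := by
    intro s; rw [MvPolynomial.coeff_map, v.red_of_reg (hreg s)]
  constructor
  · rintro ⟨-, s, hs, hs'⟩ h0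
    rw [hval] at hs hs'
    apply v.red_ne_zero hs hs'
    rw [← hred, h0, MvPolynomial.coeff_zero]
  · intro h
    have : ∃ s, (MvPolynomial.map v.resHom F₀).coeff s ≠ 0 := by
      by_contra hc
      push Not at hc
      exact h (MvPolynomial.ext _ _ fun s => by rw [hc s, MvPolynomial.coeff_zero])
    obtain ⟨s, hs⟩ := this
    rw [hred, Ne, v.red_eq_zero_iff (hreg s)] at hs
    push Not at hs
    refine ⟨fun s' hs' => ?_, s, ?_, ?_⟩
    · rw [hval] at hs' ⊢
      exact (v.reg_iff hs').1 (hreg s')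
    · rw [hval]; exact hs.1
    · rw [hval]
      exact le_antisymm hs.2 ((v.reg_iff hs.1).1 (hreg s))

theorem G_mul_zero {F F' : MvPolynomial ι K} (h : G v F 0) (h' : G v F' 0) : G v (F * F') 0 := by
  have reg : ∀ {E : MvPolynomial ι K}, G v E 0 → ∀ s, v.Reg (E.coeff s) := by
    intro E hE s
    by_cases h0 : E.coeff s = 0
    · exact Or.inl h0
    · exact Or.inr (hE.1 s h0)
  obtain ⟨F₀, rfl⟩ := lift_exists v F (reg h)
  obtain ⟨F₁, rfl⟩ := lift_exists v F' (reg h')
  rw [← map_mul, G_zero_iff, map_mul]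
  rw [G_zero_iff] at h h'
  exact mul_ne_zero h h'

theorem G_mul {F F' : MvPolynomial ι K} {a b : ℤ} (h : G v F a) (h' : G v F' b) :
    G v (F * F') (a + b) := by
  obtain ⟨t, ht0, ht⟩ := v.surj
  have e : ∀ (E : MvPolynomial ι K) (a : ℤ), E = C (t ^ a) * (C (t ^ (-a)) * E) := by
    intro E a
    rw [← mul_assoc, ← C_mul, ← zpow_add₀ ht0, add_neg_cancel, zpow_zero, C_1, one_mul]
  have o : ∀ a : ℤ, v.ord (t ^ a) = a := by
    intro a; rw [v.ord_zpow, ht, mul_one]
  have h1 := G_C v (zpow_ne_zero (-a) ht0) h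
  have h2 := G_C v (zpow_ne_zero (-b) ht0) h'
  rw [o, neg_add_cancel] at h1 h2
  have h3 := G_C v (zpow_ne_zero (a + b) ht0) (G_mul_zero v h1 h2)
  rw [o, add_zero] at h3
  have h4 : F * F' = C (t ^ (a + b)) * (C (t ^ (-a)) * F * (C (t ^ (-b)) * F')) := by
    conv_lhs => rw [e F a, e F' b]
    rw [zpow_add₀ ht0, C_mul]
    ring
  rw [h4]
  exact h3

theorem G_add {F F' : MvPolynomial ι K} {a b c : ℤ} (h : G v F a) (h' : G v F' b)
    (h'' : G v (F + F') c) : min a b ≤ c := by
  obtain ⟨-, s, hs, hs'⟩ := h''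
  rw [MvPolynomial.coeff_add] at hs hs'
  by_cases h1 : F.coeff s = 0
  · rw [h1, zero_add] at hs hs'
    have := h'.1 s hs
    omega
  by_cases h2 : F'.coeff s = 0
  · rw [h2, add_zero] at hs hs'
    have := h.1 s hs
    omega
  have h3 := v.ord_add h1 h2 hs
  have h4 := h.1 s h1
  have h5 := h'.1 s h2
  omega

end

theorem done : S_GAUSS := by
  classical
  intro k K L ι _ _ _ _ _ _ _ _ T hT htop v
  have hinj : Function.Injective (aeval T : MvPolynomial ι K →ₐ[K] L) := hT
  have hm : ∀ F : MvPolynomial ι K, ∃ a : ℤ, F ≠ 0 → G v F a := by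
    intro F
    by_cases hF : F = 0
    · exact ⟨0, fun h => absurd hF h⟩
    · obtain ⟨a, ha⟩ := G_exists v hF
      exact ⟨a, fun _ => ha⟩
  choose m hm using hm
  have hC : ∀ c : K, c ≠ 0 → m (C c) = v.ord c := by
    intro c hc
    have h1 := hm (C c) (by rwa [Ne, MvPolynomial.C_eq_zero])
    refine G_unique v h1 ⟨fun s hs => ?_, 0, ?_, ?_⟩
    · rw [MvPolynomial.coeff_C] at hs ⊢
      split_ifs at hs ⊢ with h
      · exact le_rfl
      · exact absurd rfl hs
    · rw [MvPolynomial.coeff_C]; simpa using hc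
    · rw [MvPolynomial.coeff_C]; simp
  obtain ⟨t, ht0, ht⟩ := v.surj
  obtain ⟨w, hw⟩ := ext_place (k := k) (R := MvPolynomial ι K)
    ((aeval T : MvPolynomial ι K →ₐ[K] L).restrictScalars k) hinj
    (frac_of_adjoin T htop hinj) m
    (by
      intro A B hA hB
      exact G_unique v (hm _ (mul_ne_zero hA hB)) (G_mul v (hm A hA) (hm B hB)))
    (by
      intro A B hA hB hAB
      exact G_add v (hm A hA) (hm B hB) (hm _ hAB))
    (by
      intro c hc
      have h1 : algebraMap k (MvPolynomial ι K) c = C (algebraMap k K c) := rfl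
      rw [h1, hC _ (by simpa using hc), v.ord_const hc])
    ⟨C t, 1, by rwa [Ne, MvPolynomial.C_eq_zero], one_ne_zero, by
      rw [hC t ht0, ht, ← C_1, hC 1 one_ne_zero, v.ord_one, sub_zero]⟩
  have hone : m 1 = 0 := by rw [← C_1, hC 1 one_ne_zero, v.ord_one]
  have hw1 : ∀ F : MvPolynomial ι K, F ≠ 0 → w.ord (aeval T F) = m F := by
    intro F hF
    have := hw F 1 hF one_ne_zero
    rw [map_one, div_one, hone, sub_zero] at this
    exact this
  refine ⟨w, fun φ => ?_, fun F hF => ?_⟩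
  · by_cases h0 : φ = 0
    · rw [h0, map_zero, w.ord_zero, v.ord_zero]
    · rw [← hC φ h0, ← hw1 _ (by rwa [Ne, MvPolynomial.C_eq_zero]), MvPolynomial.aeval_C]
  · constructor
    · by_cases hF0 : F = 0
      · left; rw [hF0, map_zero]
      · right
        rw [hw1 F hF0]
        obtain ⟨-, s, hs, hs'⟩ := hm F hF0
        rw [← hs']
        exact (v.reg_iff hs).1 (hF s)
    · rintro ⟨s, hs, hs'⟩
      have hF0 : F ≠ 0 := by
        rintro rfl
        exact hs (MvPolynomial.coeff_zero s)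
      refine ⟨fun h => hF0 (hinj (by rw [h, map_zero])), ?_⟩
      rw [hw1 F hF0]
      exact G_unique v (hm F hF0) ⟨fun s' hs' => (v.reg_iff hs').1 (hF s'), s, hs, hs'⟩

end Pool.Agent.Y36.LT.GAUSS
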