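import Pool.Agent.Y36.LT.Ext

/-! LT-ORD: the valuation of an irreducible polynomial. -/

set_option autoImplicit false

namespace Pool.Agent.Y36.LT.ORD

open MvPolynomial Pool.Agent.Y166.LT
open FF (Place)

theorem done : S_ORD := by
  intro k K σ _ _ _ t ht htop h hh
  have hinj : Function.Injective (aeval t : MvPolynomial σ k →ₐ[k] K) := ht
  have hp : Prime h := hh.prime
  have hfin : ∀ A : MvPolynomial σ k, A ≠ 0 → FiniteMultiplicity h A := fun A hA =>
    FiniteMultiplicity.of_not_isUnit hh.not_isUnit hA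
  have hone : multiplicity h 1 = 0 :=
    multiplicity_eq_zero.2 fun hd => hh.not_isUnit (isUnit_of_dvd_one hd)
  obtain ⟨v, hv⟩ := ext_place (k := k) (aeval t : MvPolynomial σ k →ₐ[k] K) hinj
    (frac_of_adjoin t htop hinj) (fun A => (multiplicity h A : ℤ))
    (by
      intro A B hA hB
      show ((multiplicity h (A * B) : ℕ) : ℤ) = _
      rw [multiplicity_mul hp (hfin _ (mul_ne_zero hA hB))]
      push_cast; rfl)
    (by
      intro A B hA hB hAB
      show min ((multiplicity h A : ℕ) : ℤ) (multiplicity h B : ℕ) ≤ (multiplicity h (A + B) : ℕ)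
      rw [← Nat.cast_min, Nat.cast_le]
      rw [← (hfin _ hAB).pow_dvd_iff_le_multiplicity]
      exact dvd_add (((hfin _ hA).pow_dvd_iff_le_multiplicity).2 (min_le_left _ _))
        (((hfin _ hB).pow_dvd_iff_le_multiplicity).2 (min_le_right _ _)))
    (by
      intro c hc
      show ((multiplicity h _ : ℕ) : ℤ) = 0
      rw [Nat.cast_eq_zero, multiplicity_eq_zero]
      intro hd
      exact hh.not_isUnit (isUnit_of_dvd_unit hd ((IsUnit.mk0 c hc).map (algebraMap k _))))
    ⟨h, 1, hh.ne_zero, one_ne_zero, by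
      show ((multiplicity h h : ℕ) : ℤ) - (multiplicity h 1 : ℕ) = 1
      rw [hone, multiplicity_self]; simp⟩
  refine ⟨v, ?_, ?_⟩
  · have h1 := hv h 1 hh.ne_zero one_ne_zero
    rw [map_one, div_one] at h1
    rw [h1, hone, multiplicity_self]; simp
  · intro F hF
    by_cases hF0 : F = 0
    · exact absurd (hF0 ▸ dvd_zero h) hF
    have h1 := hv F 1 hF0 one_ne_zero
    rw [map_one, div_one] at h1
    rw [h1, hone, multiplicity_eq_zero.2 hF]; simp

end Pool.Agent.Y36.LT.ORD
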