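import Pool.Agent.Y166.LT.Stm

/-! Extension of a valuation of a domain to its fraction field, in the language of places. -/

set_option autoImplicit false

namespace Pool.Agent.Y36.LT

open MvPolynomial
open FF (Place)

section
variable {k K R : Type*} [Field k] [Field K] [Algebra k K] [CommRing R] [IsDomain R] [Algebra k R]

theorem ext_place (φ : R →ₐ[k] K) (hφ : Function.Injective φ)
    (hfrac : ∀ f : K, ∃ A B : R, B ≠ 0 ∧ f = φ A / φ B) (m : R → ℤ)
    (m_mul : ∀ A B : R, A ≠ 0 → B ≠ 0 → m (A * B) = m A + m B)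
    (m_add : ∀ A B : R, A ≠ 0 → B ≠ 0 → A + B ≠ 0 → min (m A) (m B) ≤ m (A + B))
    (m_const : ∀ c : k, c ≠ 0 → m (algebraMap k R c) = 0)
    (m_surj : ∃ A B : R, A ≠ 0 ∧ B ≠ 0 ∧ m A - m B = 1) :
    ∃ v : Place k K, ∀ A B : R, A ≠ 0 → B ≠ 0 → v.ord (φ A / φ B) = m A - m B := by
  classical
  choose num den hden hf using hfrac
  have h0 : ∀ A : R, φ A = 0 ↔ A = 0 := fun A => by
    rw [← map_zero φ]; exact hφ.eq_iff
  have hnum : ∀ f : K, f ≠ 0 → num f ≠ 0 := by
    intro f hf0 h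
    apply hf0
    rw [hf f, h, map_zero, zero_div]
  set o : K → ℤ := fun f => if f = 0 then 0 else m (num f) - m (den f) with ho
  have key : ∀ A B : R, A ≠ 0 → B ≠ 0 → o (φ A / φ B) = m A - m B := by
    intro A B hA hB
    have hA' : φ A ≠ 0 := fun h => hA ((h0 A).1 h)
    have hB' : φ B ≠ 0 := fun h => hB ((h0 B).1 h)
    have hne : φ A / φ B ≠ 0 := div_ne_zero hA' hB'
    have hd' : φ (den (φ A / φ B)) ≠ 0 := fun h => hden _ ((h0 _).1 h)
    have h1 := hf (φ A / φ B)
    rw [div_eq_div_iff hB' hd', ← map_mul, ← map_mul] at h1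
    have h2 := hφ h1
    have h3 := m_mul A (den (φ A / φ B)) hA (hden _)
    have h4 := m_mul (num (φ A / φ B)) B (hnum _ hne) hB
    rw [h2] at h3
    simp only [ho, if_neg hne]
    omega
  have hex : ∀ f : K, f ≠ 0 → ∃ A B : R, A ≠ 0 ∧ B ≠ 0 ∧ f = φ A / φ B := fun f hf0 =>
    ⟨num f, den f, hnum f hf0, hden f, hf f⟩
  refine ⟨⟨o, by simp [ho], ?_, ?_, ?_, ?_⟩, fun A B hA hB => key A B hA hB⟩
  · intro f g hf0 hg0
    obtain ⟨A, B, hA, hB, rfl⟩ := hex f hf0
    obtain ⟨C, D, hC, hD, rfl⟩ := hex g hg0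
    rw [key A B hA hB, key C D hC hD, div_mul_div_comm, ← map_mul, ← map_mul,
      key _ _ (mul_ne_zero hA hC) (mul_ne_zero hB hD), m_mul A C hA hC, m_mul B D hB hD]
    ring
  · intro f g hf0 hg0 hfg
    obtain ⟨A, B, hA, hB, rfl⟩ := hex f hf0
    obtain ⟨C, D, hC, hD, rfl⟩ := hex g hg0
    have hB' : φ B ≠ 0 := fun h => hB ((h0 B).1 h)
    have hD' : φ D ≠ 0 := fun h => hD ((h0 D).1 h)
    have e : φ A / φ B + φ C / φ D = φ (A * D + B * C) / φ (B * D) := by
      rw [div_add_div _ _ hB' hD', map_add, map_mul, map_mul, map_mul]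
    have hne : A * D + B * C ≠ 0 := by
      intro h
      apply hfg
      rw [e, h, map_zero, zero_div]
    rw [e, key _ _ hne (mul_ne_zero hB hD), key A B hA hB, key C D hC hD, m_mul B D hB hD]
    have h1 := m_add (A * D) (B * C) (mul_ne_zero hA hD) (mul_ne_zero hB hC) hne
    rw [m_mul A D hA hD, m_mul B C hB hC] at h1
    omega
  · intro c hc
    have h1 : algebraMap k K c = φ (algebraMap k R c) / φ 1 := by
      rw [AlgHom.commutes, map_one, div_one]
    have h2 : algebraMap k R c ≠ 0 := by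
      intro h
      have : algebraMap k K c = 0 := by rw [h1, h, map_zero, zero_div]
      exact hc ((algebraMap k K).injective (by rw [this, map_zero]))
    have h3 : m 1 = 0 := by
      have := m_mul 1 1 one_ne_zero one_ne_zero
      rw [mul_one] at this
      omega
    rw [h1, key _ _ h2 one_ne_zero, m_const c hc, h3, sub_zero]
  · obtain ⟨A, B, hA, hB, h⟩ := m_surj
    exact ⟨φ A / φ B, div_ne_zero (fun h => hA ((h0 A).1 h)) (fun h => hB ((h0 B).1 h)),
      by rw [key A B hA hB, h]⟩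

end

section
variable {k K σ : Type*} [Field k] [Field K] [Algebra k K]

theorem frac_of_adjoin (t : σ → K) (ht : IntermediateField.adjoin k (Set.range t) = ⊤)
    (hinj : Function.Injective (aeval t : MvPolynomial σ k →ₐ[k] K)) (f : K) :
    ∃ A B : MvPolynomial σ k, B ≠ 0 ∧ f = aeval t A / aeval t B := by
  have hf : f ∈ IntermediateField.adjoin k (Set.range t) := by rw [ht]; trivial
  rw [IntermediateField.mem_adjoin_range_iff] at hf
  obtain ⟨r, s, h⟩ := hf
  by_cases hs : s = 0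
  · refine ⟨0, 1, one_ne_zero, ?_⟩
    rw [h, hs, map_zero, div_zero, zero_div]
  · exact ⟨r, s, hs, h⟩

end

end Pool.Agent.Y36.LT
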